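import Pool.Agent.T9h78.Sing.Spec

/-! (E) The last vector -/

set_option autoImplicit false

namespace Pool.Agent.T9h75.Sing

open Matrix BigOperators
open Pool.Agent.T9h78.Sing

universe u

section
variable {F V : Type u} [Field F] [AddCommGroup V] [Module F V]
variable (X : V →ₗ[F] V →ₗ[F] F)

/-- a combination of a good tuple which is right orthogonal to it is zero -/
theorem coef_zero {m : ℕ} {w : Fin m → V} (hw : Good (fun x y => X x y) w) (c : Fin m → F)
    (h : ∀ b, X (w b) (∑ a, c a • w a) = 0) : ∀ a, c a = 0 := by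
  by_contra hcon
  push Not at hcon
  classical
  have hne : (Finset.univ.filter (fun a => c a ≠ 0)).Nonempty := by
    obtain ⟨a, ha⟩ := hcon
    exact ⟨a, by simp [ha]⟩
  set b := (Finset.univ.filter (fun a => c a ≠ 0)).min' hne with hb
  have hb1 : c b ≠ 0 := by
    have := Finset.min'_mem _ hne
    rw [← hb] at this
    simpa using this
  have hb2 : ∀ a, a < b → c a = 0 := by
    intro a ha
    by_contra h'
    have := Finset.min'_le (Finset.univ.filter (fun a => c a ≠ 0)) a (by simp [h'])
    rw [← hb] at this
    exact absurd ha (not_lt.2 this)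
  have h1 := h b
  rw [map_sum, Finset.sum_eq_single b] at h1
  · rw [map_smul, smul_eq_mul] at h1
    exact (mul_ne_zero hb1 (hw.2 b)) h1
  · intro a _ hab
    rw [map_smul, smul_eq_mul]
    rcases lt_or_gt_of_ne hab with h' | h'
    · rw [hb2 a h', zero_mul]
    · have := hw.1 b a h'
      rw [show X (w b) (w a) = 0 from this, mul_zero]
  · intro h'; exact absurd (Finset.mem_univ b) h'

theorem good_li {m : ℕ} {w : Fin m → V} (hw : Good (fun x y => X x y) w) :
    LinearIndependent F w := by
  rw [Fintype.linearIndependent_iff]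
  intro c hc
  refine coef_zero X hw c fun b => ?_
  rw [hc, map_zero]

/-- the orthogonal complement on the right -/
def Kw {m : ℕ} (w : Fin m → V) : Submodule F V where
  carrier := {v | ∀ a, X (w a) v = 0}
  add_mem' := by
    intro x y hx hy a
    rw [map_add, hx a, hy a, add_zero]
  zero_mem' := by
    intro a
    rw [map_zero]
  smul_mem' := by
    intro c x hx a
    rw [map_smul, hx a, smul_zero]

theorem mem_Kw {m : ℕ} (w : Fin m → V) (v : V) : v ∈ Kw X w ↔ ∀ a, X (w a) v = 0 := Iff.rfl

variable [FiniteDimensional F V]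

theorem right_nondeg (hX : ∀ x, (∀ y, X x y = 0) → x = 0) : ∀ y, (∀ x, X x y = 0) → y = 0 := by
  have hinj : Function.Injective X := by
    rw [← LinearMap.ker_eq_bot, LinearMap.ker_eq_bot']
    intro x hx
    exact hX x fun y => by rw [hx]; rfl
  have hsurj : Function.Surjective X := by
    have hfin : Module.finrank F V = Module.finrank F (V →ₗ[F] F) :=
      (Subspace.dual_finrank_eq (K := F) (V := V)).symm
    exact (LinearMap.injective_iff_surjective_of_finrank_eq_finrank hfin).1 hinj
  intro y hy
  refine (Module.forall_dual_apply_eq_zero_iff F y).1 fun f => ?_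
  obtain ⟨x, rfl⟩ := hsurj f
  exact hy x

theorem finrank_Kw {m : ℕ} {w : Fin m → V} (hw : Good (fun x y => X x y) w)
    (hV : Module.finrank F V = m + 1) : Module.finrank F (Kw X w) = 1 := by
  let T : V →ₗ[F] (Fin m → F) := LinearMap.pi (fun a => X (w a))
  have hker : LinearMap.ker T = Kw X w := by
    ext v
    rw [LinearMap.mem_ker, mem_Kw, funext_iff]
    rfl
  let S : (Fin m → F) →ₗ[F] V := Fintype.linearCombination F w
  have hinj : Function.Injective (T.comp S) := by
    rw [← LinearMap.ker_eq_bot, LinearMap.ker_eq_bot']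
    intro c hc
    funext a
    refine coef_zero X hw c (fun b => ?_) a
    have := congrFun hc b
    exact this
  have hsurj : Function.Surjective T := by
    have h1 := LinearMap.injective_iff_surjective.1 hinj
    intro y
    obtain ⟨c, hc⟩ := h1 y
    exact ⟨S c, hc⟩
  have h1 := LinearMap.finrank_range_add_finrank_ker T
  rw [LinearMap.range_eq_top.2 hsurj, finrank_top, Module.finrank_fin_fun, hV, hker] at h1
  omega

theorem diag_ne {m : ℕ} {w : Fin m → V} (hX : ∀ x, (∀ y, X x y = 0) → x = 0)
    (hw : Good (fun x y => X x y) w) (hV : Module.finrank F V = m + 1) {v : V}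
    (hv : ∀ a, X (w a) v = 0) (hv0 : v ≠ 0) : X v v ≠ 0 := by
  intro h0
  apply hv0
  refine right_nondeg X hX v ?_
  have hli : LinearIndependent F (Fin.snoc w v : Fin (m + 1) → V) := by
    rw [linearIndependent_finSnoc]
    refine ⟨good_li X hw, fun hmem => hv0 ?_⟩
    obtain ⟨c, hc⟩ := (Submodule.mem_span_range_iff_exists_fun F).1 hmem
    have := coef_zero X hw c (fun b => by rw [hc]; exact hv b)
    rw [← hc]
    exact Finset.sum_eq_zero fun a _ => by rw [this a, zero_smul]
  have htop := hli.span_eq_top_of_card_eq_finrank' (by rw [Fintype.card_fin, hV])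
  intro x
  have hx : x ∈ Submodule.span F (Set.range (Fin.snoc w v : Fin (m + 1) → V)) := by
    rw [htop]; trivial
  have hle : Submodule.span F (Set.range (Fin.snoc w v : Fin (m + 1) → V)) ≤
      LinearMap.ker (X.flip v) := by
    rw [Submodule.span_le]
    rintro _ ⟨a, rfl⟩
    rw [SetLike.mem_coe, LinearMap.mem_ker, LinearMap.flip_apply]
    refine Fin.lastCases ?_ (fun a => ?_) a
    · rw [Fin.snoc_last]; exact h0
    · rw [Fin.snoc_castSucc]; exact hv a
  exact hle hx

end

theorem fibre {F V : Type u} [Field F] [Fintype F] [AddCommGroup V] [Module F V]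
    [FiniteDimensional F V] (X : V →ₗ[F] V →ₗ[F] F) (hX : ∀ x, (∀ y, X x y = 0) → x = 0) {m : ℕ}
    (hV : Module.finrank F V = m + 1) {w : Fin m → V} (hw : Good (fun x y => X x y) w) :
    Nat.card {v : V // (∀ a, X (w a) v = 0) ∧ X v v ≠ 0} = Fintype.card F - 1 := by
  classical
  have : Finite V := Module.finite_of_finite F
  let e : {v : V // (∀ a, X (w a) v = 0) ∧ X v v ≠ 0} ≃ {v : Kw X w // v ≠ 0} :=
    { toFun := fun v => ⟨⟨v.1, v.2.1⟩, fun h => by
        have h' : v.1 = 0 := congrArg Subtype.val h
        apply v.2.2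
        rw [h', map_zero]⟩
      invFun := fun v => ⟨v.1.1, v.1.2, diag_ne X hX hw hV v.1.2 fun h => v.2 (Subtype.ext h)⟩
      left_inv := fun _ => rfl
      right_inv := fun _ => rfl }
  have : Fintype (Kw X w) := Fintype.ofFinite _
  rw [Nat.card_congr e, Nat.card_eq_fintype_card, Fintype.card_subtype_compl (fun v => v = 0),
    Fintype.card_subtype_eq, Module.card_eq_pow_finrank (K := F) (V := Kw X w),
    finrank_Kw X hw hV, pow_one]

/-- (E) -/
theorem stLast : StLast := by
  intro F V _ _ _ _ _ X hX m hV
  classical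
  have : Finite V := Module.finite_of_finite F
  let e : {w : Fin (m + 1) → V // Good (fun x y => X x y) w} ≃
      Σ w' : {w : Fin m → V // Good (fun x y => X x y) w},
        {v : V // (∀ a, X (w'.1 a) v = 0) ∧ X v v ≠ 0} :=
    { toFun := fun w => ⟨⟨fun a => w.1 a.castSucc,
          ⟨fun a b hab => w.2.1 _ _ (Fin.castSucc_lt_castSucc_iff.2 hab), fun a => w.2.2 _⟩⟩,
        ⟨w.1 (Fin.last m), fun a => w.2.1 _ _ (Fin.castSucc_lt_last a), w.2.2 _⟩⟩
      invFun := fun p => ⟨Fin.snoc p.1.1 p.2.1, by
        constructor
        · intro a b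
          refine Fin.lastCases ?_ (fun b => ?_) b
          · refine Fin.lastCases ?_ (fun a => ?_) a
            · intro h; exact absurd h (lt_irrefl _)
            · intro _
              rw [Fin.snoc_castSucc, Fin.snoc_last]
              exact p.2.2.1 a
          · refine Fin.lastCases ?_ (fun a => ?_) a
            · intro h; exact absurd h (not_lt.2 (Fin.castSucc_lt_last b).le)
            · intro h
              rw [Fin.snoc_castSucc, Fin.snoc_castSucc]
              exact p.1.2.1 a b (Fin.castSucc_lt_castSucc_iff.1 h)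
        · intro a
          refine Fin.lastCases ?_ (fun a => ?_) a
          · rw [Fin.snoc_last]; exact p.2.2.2
          · rw [Fin.snoc_castSucc]; exact p.1.2.2 a⟩
      left_inv := by
        intro w
        apply Subtype.ext
        funext a
        refine Fin.lastCases ?_ (fun a => ?_) a
        · simp
        · simp
      right_inv := by
        rintro ⟨⟨w, hw⟩, ⟨v, hv⟩⟩
        refine Sigma.subtype_ext ?_ ?_
        · apply Subtype.ext
          funext a
          simp
        · simp }
  have : Fintype {w : Fin m → V // Good (fun x y => X x y) w} := Fintype.ofFinite _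
  rw [Nat.card_congr e, Nat.card_sigma]
  rw [Finset.sum_congr rfl fun w' _ => fibre X hX hV w'.2]
  rw [Finset.sum_const, smul_eq_mul, Finset.card_univ, Nat.card_eq_fintype_card, mul_comm]

end Pool.Agent.T9h75.Sing
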