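import Pool.Agent.T9h78.Sing.Spec

/-! (R2) Symmetry of the pencil -/

set_option autoImplicit false

namespace Pool.Agent.T9h75.Sing

open Matrix BigOperators Polynomial
open Pool.Agent.T9h78.Sing

universe u v w

theorem descend {k₀ : Type u} {K : Type v} [Field k₀] [Field K] (j : k₀ →+* K) {k : ℕ}
    (A : Matrix (Fin k) (Fin k) k₀) (l : Fin k → k₀)
    (h : ∃ μ : Fin k → K, A.map j *ᵥ μ = fun i => j (l i)) : ∃ μ, A *ᵥ μ = l := by
  let _ := j.toAlgebra
  have hker : LinearMap.ker (Algebra.linearMap k₀ K) = ⊥ := by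
    rw [LinearMap.ker_eq_bot]
    exact (algebraMap k₀ K).injective
  obtain ⟨ρ, hρ⟩ := LinearMap.exists_leftInverse_of_injective (Algebra.linearMap k₀ K) hker
  obtain ⟨μ, hμ⟩ := h
  refine ⟨fun i => ρ (μ i), ?_⟩
  funext i
  have h1 := congrArg ρ (congrFun hμ i)
  have h2 : ρ (j (l i)) = l i := LinearMap.congr_fun hρ (l i)
  rw [h2] at h1
  rw [← h1]
  simp only [Matrix.mulVec, dotProduct, Matrix.map_apply, map_sum]
  refine Finset.sum_congr rfl fun b _ => ?_
  have h3 : j (A i b) * μ b = A i b • μ b := (Algebra.smul_def _ _).symm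
  rw [h3, map_smul, smul_eq_mul]

theorem aeval_tt (F : Type u) [Field F] (p : F[X]) :
    aeval (tt F) p = HahnSeries.ofPowerSeries ℤ F (p : PowerSeries F) := by
  induction p using Polynomial.induction_on' with
  | add p q hp hq => rw [map_add, hp, hq, Polynomial.coe_add, map_add]
  | monomial n a =>
    rw [aeval_monomial, ← Polynomial.C_mul_X_pow_eq_monomial, Polynomial.coe_mul,
      Polynomial.coe_C, Polynomial.coe_pow, Polynomial.coe_X, map_mul, map_pow,
      HahnSeries.algebraMap_apply', PowerSeries.algebraMap_apply]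
    rfl

theorem tt_trans (F : Type u) [Field F] : Transcendental F (tt F) := by
  rw [transcendental_iff]
  intro p hp
  rw [aeval_tt] at hp
  have h1 := HahnSeries.ofPowerSeries_injective (Γ := ℤ) (R := F) (hp.trans (map_zero _).symm)
  exact Polynomial.coe_injective F (h1.trans Polynomial.coe_zero.symm)

theorem pen_map {F : Type u} [Field F] {K : Type v} [Field K] [Algebra F K] {L : Type w} [Field L]
    [Algebra F L] (φ : K →ₐ[F] L) (t : K) {k : ℕ} (S : Matrix (Fin k) (Fin k) F) :
    (pen t S).map φ = pen (φ t) S := by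
  ext a b
  simp [pen, Matrix.map_apply]

theorem key {F : Type u} [Field F] {K : Type v} [Field K] [Algebra F K] {t s : K}
    (ht : Transcendental F t) (hs : Transcendental F s) {k : ℕ} (S : Matrix (Fin k) (Fin k) F)
    (l : Fin k → F) (h : ∃ μ : Fin k → K, pen t S *ᵥ μ = fun i => algebraMap F K (l i)) :
    ∃ μ : Fin k → K, pen s S *ᵥ μ = fun i => algebraMap F K (l i) := by
  have h1 : Function.Injective (aeval t : F[X] →ₐ[F] K) := transcendental_iff_injective.1 ht
  have h2 : Function.Injective (aeval s : F[X] →ₐ[F] K) := transcendental_iff_injective.1 hs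
  let φ : FractionRing F[X] →ₐ[F] K := IsFractionRing.liftAlgHom h1
  let ψ : FractionRing F[X] →ₐ[F] K := IsFractionRing.liftAlgHom h2
  let x : FractionRing F[X] := algebraMap F[X] _ X
  have e1 : φ x = t := by
    have := IsFractionRing.lift_algebraMap (K := FractionRing F[X]) (g := (aeval t : F[X] →ₐ[F] K).toRingHom) h1 X
    exact this.trans (aeval_X t)
  have e2 : ψ x = s := by
    have := IsFractionRing.lift_algebraMap (K := FractionRing F[X]) (g := (aeval s : F[X] →ₐ[F] K).toRingHom) h2 X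
    exact this.trans (aeval_X s)
  obtain ⟨μ, hμ⟩ := descend φ.toRingHom (pen x S) (fun i => algebraMap F _ (l i)) (by
    obtain ⟨μ, hμ⟩ := h
    refine ⟨μ, ?_⟩
    have e3 : (pen x S).map φ.toRingHom = pen t S := by
      rw [← e1]; exact pen_map φ x S
    rw [e3, hμ]
    funext i
    exact (φ.commutes (l i)).symm)
  refine ⟨fun i => ψ (μ i), ?_⟩
  rw [← e2, ← pen_map ψ x S]
  funext i
  have h3 := congrArg ψ (congrFun hμ i)
  rw [ψ.commutes] at h3
  rw [← h3]
  simp [Matrix.mulVec, dotProduct, Matrix.map_apply]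

theorem fwd (F : Type u) [Field F] (k : ℕ) (S : Matrix (Fin k) (Fin k) F) (l : Fin k → F)
    (h : ∃ μ : Fin k → LaurentSeries F, pen (tt F) S *ᵥ μ = fun i => algebraMap F _ (l i)) :
    ∃ μ : Fin k → LaurentSeries F, μ ᵥ* pen (tt F) S = fun i => algebraMap F _ (l i) := by
  have ht := tt_trans F
  have ht0 : tt F ≠ 0 := by
    intro h0
    apply ht
    rw [h0]
    exact isAlgebraic_zero
  have hs : Transcendental F (tt F)⁻¹ := by
    rw [Transcendental, IsAlgebraic.inv_iff]
    exact ht
  obtain ⟨μ, hμ⟩ := key ht hs S l h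
  refine ⟨fun i => (tt F)⁻¹ * μ i, ?_⟩
  rw [← hμ]
  funext i
  simp only [Matrix.vecMul, Matrix.mulVec, dotProduct, pen]
  refine Finset.sum_congr rfl fun b _ => ?_
  field_simp
  ring

/-- (R2) -/
theorem stSym : StSym := by
  intro F _ k S l
  refine ⟨fwd F k S l, ?_⟩
  rintro ⟨μ, hμ⟩
  obtain ⟨ν, hν⟩ := fwd F k Sᵀ l ⟨μ, by
    rw [← hμ]
    funext i
    simp only [Matrix.vecMul, Matrix.mulVec, dotProduct, pen, Matrix.transpose_apply]
    refine Finset.sum_congr rfl fun b _ => ?_
    ring⟩
  refine ⟨ν, ?_⟩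
  rw [← hν]
  funext i
  simp only [Matrix.vecMul, Matrix.mulVec, dotProduct, pen, Matrix.transpose_apply]
  refine Finset.sum_congr rfl fun b _ => ?_
  ring

end Pool.Agent.T9h75.Sing
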